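import Pool.Agent.Lib_MP_d5b6a6.Rough

/-!
# Integers with few small prime factors in short intervals, II
-/

set_option autoImplicit false

namespace Pool.Agent.LongRun

open Finset Pool.Agent.SplI Pool.Agent.SplI.SieveI

/-- multiples of a prime `p` among the rough elements of a block -/
theorem rough_mult (a h : ℕ) (ha : 1 ≤ a) (y : ℝ) (p : ℕ) (hp : p.Prime) (z : ℕ) (hz : 2 ≤ z)
    (hzy : ((z : ℝ)) ^ 2 ≤ y) :
    (((Rgh a h y).filter (fun n => p ∣ n)).card : ℝ) ≤
      2 * ((h : ℝ) / p) / Real.log z + (z : ℝ) ^ 4 := by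
  have h1 := sieve_upper_rough z hz ((Ico a (a + h)).filter (fun n => p ∣ n)) (fun n => n / p)
    ((h : ℝ) / p) 1 (by positivity)
    (by
      intro n hn
      rw [Finset.mem_filter, Finset.mem_Ico] at hn
      exact Nat.div_pos (Nat.le_of_dvd (by omega) hn.2) hp.pos)
    (by
      intro d hd
      rw [Finset.mem_Icc] at hd
      have hfil : ((Ico a (a + h)).filter (fun n => p ∣ n)).filter (fun n => d ∣ n / p) =
          (Ico a (a + h)).filter (fun n => p * d ∣ n) := by
        rw [Finset.filter_filter]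
        refine Finset.filter_congr fun n _ => ?_
        constructor
        · rintro ⟨h2, h3⟩
          obtain ⟨k, rfl⟩ := h2
          rw [Nat.mul_div_cancel_left _ hp.pos] at h3
          exact Nat.mul_dvd_mul_left p h3
        · intro h2
          refine ⟨dvd_trans (dvd_mul_right p d) h2, ?_⟩
          obtain ⟨k, rfl⟩ := dvd_trans (dvd_mul_right p d) h2
          rw [Nat.mul_div_cancel_left _ hp.pos]
          exact Nat.dvd_of_mul_dvd_mul_left hp.pos h2
      rw [hfil]
      have h4 := block_count a h (p * d) (Nat.mul_pos hp.pos (by omega))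
      have e1 : (h : ℝ) / ((p * d : ℕ) : ℝ) = (h : ℝ) / p / d := by
        push_cast
        rw [div_div]
      rw [e1] at h4
      exact h4)
    ((Rgh a h y).filter (fun n => p ∣ n))
    (by
      intro n hn
      rw [Finset.mem_filter] at hn ⊢
      exact ⟨(mem_Rgh.1 hn.1).1, hn.2⟩)
    (by
      intro n hn q hq hqn
      rw [Finset.mem_filter] at hn
      have h2 := (mem_Rgh.1 hn.1).2 q hq (hqn.trans (Nat.div_dvd_of_dvd hn.2))
      have h3 : ((z ^ 2 : ℕ) : ℝ) < q := by
        push_cast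
        linarith
      exact_mod_cast h3)
  linarith

/-- in every block of length `h` there is an integer with a bounded number of prime factors
up to `h ^ (1 - δ)` -/
theorem few_small (δ : ℝ) (hδ : 0 < δ) (hδ1 : δ ≤ 1 / 2) : ∃ C0 H0 : ℝ, ∀ h : ℕ, H0 ≤ h →
    ∀ a : ℕ, 1 ≤ a → ∃ n ∈ Ico a (a + h),
      ((n.primeFactors.filter (fun p : ℕ => (p : ℝ) ≤ (h : ℝ) ^ (1 - δ))).card : ℝ) ≤ C0 := by
  classical
  obtain ⟨a0, c4, ha0, ha1, hc4, H1, hH1, hlow⟩ := rough_lower
  obtain ⟨C, hC0, hC⟩ := Lr_bounds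
  obtain ⟨μ, hμ⟩ : ∃ μ : ℝ, μ = min (a0 / 2) (δ / 8) := ⟨_, rfl⟩
  have hμ0 : 0 < μ := by rw [hμ]; exact lt_min (by linarith) (by linarith)
  have hμa : 2 * μ ≤ a0 := by
    have := min_le_left (a0 / 2) (δ / 8)
    rw [← hμ] at this
    linarith
  have hμd : 4 * μ ≤ δ / 2 := by
    have := min_le_right (a0 / 2) (δ / 8)
    rw [← hμ] at this
    linarith
  have hlin : ∀ᶠ H : ℝ in Filter.atTop, Real.log H ≤ H ^ (δ / 2) := by
    have h1 : Filter.Tendsto (fun H : ℝ => Real.log H / H ^ (δ / 2)) Filter.atTop (nhds 0) :=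
      (isLittleO_log_rpow_atTop (by linarith)).tendsto_div_nhds_zero
    filter_upwards [h1.eventually_le_const zero_lt_one, Filter.eventually_gt_atTop 0] with H hH hH0
    rw [div_le_one (Real.rpow_pos_of_pos hH0 _)] at hH
    exact hH
  obtain ⟨H2, hH2⟩ := Filter.eventually_atTop.mp
    ((hlin.and ((tendsto_rpow_atTop hμ0).eventually_ge_atTop 4)).and
      ((tendsto_rpow_atTop ha0).eventually_ge_atTop 2))
  obtain ⟨C6, hC6⟩ : ∃ C6 : ℝ, C6 = 4 / μ * (C + Real.log (1 / a0)) + 1 := ⟨_, rfl⟩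
  refine ⟨C6 / c4, max (max H1 H2) 2, ?_⟩
  intro h hh a ha
  have hhH1 : H1 ≤ h := (le_max_left _ _).trans ((le_max_left _ _).trans hh)
  have hhH2 : H2 ≤ h := (le_max_right _ _).trans ((le_max_left _ _).trans hh)
  have hh2 : (2 : ℝ) ≤ h := (le_max_right _ _).trans hh
  obtain ⟨⟨hlg, h4⟩, hy2⟩ := hH2 h hhH2
  have hh0 : (0 : ℝ) < h := by linarith
  have hh1 : (1 : ℝ) ≤ h := by linarith
  have hlogh : 0 < Real.log h := Real.log_pos (by linarith)
  obtain ⟨y, hy⟩ : ∃ y : ℝ, y = (h : ℝ) ^ a0 := ⟨_, rfl⟩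
  obtain ⟨W, hW⟩ : ∃ W : ℝ, W = (h : ℝ) ^ (1 - δ) := ⟨_, rfl⟩
  obtain ⟨z, hz⟩ : ∃ z : ℕ, z = ⌊(h : ℝ) ^ μ⌋₊ := ⟨_, rfl⟩
  have hzle : (z : ℝ) ≤ (h : ℝ) ^ μ := by
    rw [hz]
    exact Nat.floor_le (by positivity)
  have hzge : (h : ℝ) ^ μ / 2 ≤ z := by
    have := Nat.lt_floor_add_one ((h : ℝ) ^ μ)
    rw [← hz] at this
    linarith
  have hz2 : 2 ≤ z := by
    have : (2 : ℝ) ≤ z := by linarith
    exact_mod_cast this
  have hzy : ((z : ℝ)) ^ 2 ≤ y := by
    calc ((z : ℝ)) ^ 2 ≤ ((h : ℝ) ^ μ) ^ 2 := by gcongr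
      _ = (h : ℝ) ^ (2 * μ) := by
          rw [← Real.rpow_natCast, ← Real.rpow_mul hh0.le]
          congr 1
          push_cast
          ring
      _ ≤ y := by
          rw [hy]
          exact Real.rpow_le_rpow_of_exponent_le hh1 hμa
  have hz4 : ((z : ℝ)) ^ 4 ≤ (h : ℝ) ^ (δ / 2) := by
    calc ((z : ℝ)) ^ 4 ≤ ((h : ℝ) ^ μ) ^ 4 := by gcongr
      _ = (h : ℝ) ^ (4 * μ) := by
          rw [← Real.rpow_natCast, ← Real.rpow_mul hh0.le]
          congr 1
          push_cast
          ring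
      _ ≤ _ := Real.rpow_le_rpow_of_exponent_le hh1 hμd
  have hlogz : μ / 2 * Real.log h ≤ Real.log z := by
    have h5 : Real.log ((h : ℝ) ^ μ / 2) ≤ Real.log z := Real.log_le_log (by positivity) hzge
    rw [Real.log_div (by positivity) (by norm_num), Real.log_rpow hh0] at h5
    have h6 : Real.log 4 ≤ μ * Real.log h := by
      rw [← Real.log_rpow hh0]
      exact Real.log_le_log (by norm_num) h4
    have h7 : Real.log 4 = 2 * Real.log 2 := by
      rw [show (4 : ℝ) = 2 ^ 2 by norm_num, Real.log_pow]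
      norm_num
    linarith
  have hlz0 : 0 < Real.log z := lt_of_lt_of_le (by positivity) hlogz
  have hlow' := hlow h hhH1 a
  rw [← hy] at hlow'
  set R := Rgh a h y with hR
  -- the incidences
  have hyW : y ≤ W := by
    rw [hy, hW]
    exact Real.rpow_le_rpow_of_exponent_le hh1 (by linarith)
  have hy2' : 2 ≤ y := by rw [hy]; exact hy2
  have hLr : Lr y W ≤ C + Real.log (1 / a0) := by
    have h5 := (abs_le.1 (hC y W hy2' hyW)).2
    have h6 : Real.log W = (1 - δ) * Real.log h := by rw [hW, Real.log_rpow hh0]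
    have h7 : Real.log y = a0 * Real.log h := by rw [hy, Real.log_rpow hh0]
    rw [h6, h7, Real.log_mul (by linarith) hlogh.ne', Real.log_mul ha0.ne' hlogh.ne'] at h5
    have h8 : Real.log (1 - δ) ≤ 0 := Real.log_nonpos (by linarith) (by linarith)
    rw [one_div, Real.log_inv]
    linarith
  have hLr0 : 0 ≤ Lr y W := Finset.sum_nonneg fun p _ => by positivity
  have hcardP : ((PrI y W).card : ℝ) ≤ W := by
    have h5 : (PrI y W).card ≤ ⌊W⌋₊ := by
      calc (PrI y W).card ≤ (Icc 1 ⌊W⌋₊).card := Finset.card_le_card (Finset.filter_subset _ _)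
        _ = ⌊W⌋₊ := by simp
    have h6 : ((⌊W⌋₊ : ℕ) : ℝ) ≤ W := Nat.floor_le (by rw [hW]; positivity)
    exact le_trans (by exact_mod_cast h5) h6
  have hT : ∑ p ∈ PrI y W, (((R.filter (fun n => p ∣ n)).card : ℝ)) ≤
      C6 * (h / Real.log h) := by
    calc ∑ p ∈ PrI y W, (((R.filter (fun n => p ∣ n)).card : ℝ)) ≤
        ∑ p ∈ PrI y W, (2 * h / Real.log z * (1 / (p : ℝ)) + (h : ℝ) ^ (δ / 2)) := by
          refine Finset.sum_le_sum fun p hp => ?_
          have hp' := (mem_PrI.1 hp).1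
          have h5 := rough_mult a h ha y p hp' z hz2 hzy
          have h6 : 2 * ((h : ℝ) / p) / Real.log z = 2 * h / Real.log z * (1 / (p : ℝ)) := by
            field_simp
          rw [h6] at h5
          linarith
      _ = 2 * h / Real.log z * Lr y W + (PrI y W).card * (h : ℝ) ^ (δ / 2) := by
          rw [Finset.sum_add_distrib, ← Finset.mul_sum, Finset.sum_const, nsmul_eq_mul]
          rfl
      _ ≤ 4 / μ * (h / Real.log h) * (C + Real.log (1 / a0)) + h / Real.log h := by
          refine add_le_add ?_ ?_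
          · refine mul_le_mul ?_ hLr hLr0 (by positivity)
            calc 2 * h / Real.log z ≤ 2 * h / (μ / 2 * Real.log h) := by
                  apply div_le_div_of_nonneg_left (by positivity) (by positivity) hlogz
              _ = 4 / μ * (h / Real.log h) := by
                  field_simp
                  ring
          · calc ((PrI y W).card : ℝ) * (h : ℝ) ^ (δ / 2) ≤ W * (h : ℝ) ^ (δ / 2) := by
                  gcongr
              _ = h / (h : ℝ) ^ (δ / 2) := by
                  rw [hW, ← Real.rpow_add hh0, eq_div_iff (Real.rpow_pos_of_pos hh0 _).ne',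
                    ← Real.rpow_add hh0]
                  conv_rhs => rw [← Real.rpow_one (h : ℝ)]
                  congr 1
                  ring
              _ ≤ h / Real.log h := by
                  apply div_le_div_of_nonneg_left hh0.le hlogh hlg
      _ = C6 * (h / Real.log h) := by
          rw [hC6]
          ring
  have hRpos : 0 < ((R.card : ℕ) : ℝ) := lt_of_lt_of_le (by positivity) hlow'
  have hRne : R.Nonempty := by
    rw [← Finset.card_pos]
    exact_mod_cast hRpos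
  have hC60 : 0 ≤ C6 := by
    rw [hC6]
    have : 0 ≤ Real.log (1 / a0) := Real.log_nonneg (by
      rw [le_div_iff₀ ha0]
      linarith)
    positivity
  have hcount : ∑ n ∈ R, (((PrI y W).filter (fun p => p ∣ n)).card : ℝ) ≤
      ∑ _n ∈ R, (C6 / c4 : ℝ) := by
    calc ∑ n ∈ R, (((PrI y W).filter (fun p => p ∣ n)).card : ℝ) =
        ∑ n ∈ R, ∑ p ∈ PrI y W, (if p ∣ n then (1 : ℝ) else 0) := by
          refine Finset.sum_congr rfl fun n _ => ?_
          rw [Finset.sum_boole]
      _ = ∑ p ∈ PrI y W, ∑ n ∈ R, (if p ∣ n then (1 : ℝ) else 0) := Finset.sum_comm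
      _ = ∑ p ∈ PrI y W, (((R.filter (fun n => p ∣ n)).card : ℝ)) := by
          refine Finset.sum_congr rfl fun n _ => ?_
          rw [Finset.sum_boole]
      _ ≤ C6 * (h / Real.log h) := hT
      _ = C6 / c4 * (c4 * (h / Real.log h)) := by field_simp
      _ ≤ C6 / c4 * R.card := by
          exact mul_le_mul_of_nonneg_left hlow' (by positivity)
      _ = ∑ _n ∈ R, (C6 / c4 : ℝ) := by
          rw [Finset.sum_const, nsmul_eq_mul]
          ring
  obtain ⟨n, hn, hn2⟩ := Finset.exists_le_of_sum_le hRne hcount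
  refine ⟨n, (mem_Rgh.1 hn).1, le_trans ?_ hn2⟩
  have hsub : n.primeFactors.filter (fun p : ℕ => (p : ℝ) ≤ (h : ℝ) ^ (1 - δ)) ⊆
      (PrI y W).filter (fun p => p ∣ n) := by
    intro p hp
    rw [Finset.mem_filter, Nat.mem_primeFactors] at hp
    obtain ⟨⟨hpp, hpn, -⟩, hpW⟩ := hp
    rw [Finset.mem_filter]
    exact ⟨mem_PrI.2 ⟨hpp, (mem_Rgh.1 hn).2 p hpp hpn, by rw [hW]; exact hpW⟩, hpn⟩
  exact_mod_cast Finset.card_le_card hsub

/-- the number of prime factors above `w` -/
theorem large_factors {n : ℕ} (hn : n ≠ 0) {w : ℝ} (hw : 1 < w) :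
    ((n.primeFactors.filter (fun p : ℕ => ¬ ((p : ℝ) ≤ w))).card : ℝ) * Real.log w ≤ Real.log n := by
  set S := n.primeFactors.filter (fun p : ℕ => ¬ ((p : ℝ) ≤ w)) with hS
  have h1 : w ^ S.card ≤ ((∏ p ∈ S, p : ℕ) : ℝ) := by
    push_cast
    rw [← Finset.prod_const]
    refine Finset.prod_le_prod (fun p _ => by linarith) fun p hp => ?_
    rw [hS, Finset.mem_filter] at hp
    linarith [hp.2]
  have h2 : ∏ p ∈ S, p ∣ n :=
    dvd_trans (Finset.prod_dvd_prod_of_subset _ _ _ (Finset.filter_subset _ _))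
      (Nat.prod_primeFactors_dvd n)
  have h3 : ((∏ p ∈ S, p : ℕ) : ℝ) ≤ n := by
    exact_mod_cast Nat.le_of_dvd (Nat.pos_of_ne_zero hn) h2
  rw [← Real.log_pow]
  exact Real.log_le_log (by positivity) (h1.trans h3)

end Pool.Agent.LongRun
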