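import Pool.Agent.Lib_MP_92ef0c_spi.SieveI
import Pool.Agent.Lib_MP_f1a94e_eck.SvU

/-!
# Integers with few small prime factors in short intervals
-/

set_option autoImplicit false

namespace Pool.Agent.LongRun

open Finset Pool.Agent.SplI Pool.Agent.SplI.SieveI
open Pool.Agent.GaussMR.SieveA (exists_t)

/-- multiples of `d` in a block of length `h` -/
theorem block_count (a h d : ℕ) (hd : 0 < d) :
    |(((Ico a (a + h)).filter (fun n => d ∣ n)).card : ℝ) - (h : ℝ) / d| ≤ 1 := by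
  have hfil : (Ico a (a + h)).filter (fun n => d ∣ n) =
      (Ico a (a + h)).filter (fun n => n ≡ 0 [MOD d]) := by
    refine Finset.filter_congr fun n _ => ?_
    exact (Nat.modEq_zero_iff_dvd).symm
  rw [hfil]
  have h1 := Nat.Ico_filter_modEq_card a (a + h) (r := d) (by exact_mod_cast hd) 0
  have hdR : (0 : ℚ) < d := by exact_mod_cast hd
  have e1 : (((Ico a (a + h)).filter (fun n => n ≡ 0 [MOD d])).card : ℤ) =
      max (⌈(((a + h : ℕ) : ℚ) - ((0 : ℕ) : ℚ)) / d⌉ - ⌈((a : ℚ) - ((0 : ℕ) : ℚ)) / d⌉) 0 := by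
    exact_mod_cast h1
  have hmono : ⌈((a : ℚ) - ((0 : ℕ) : ℚ)) / d⌉ ≤ ⌈(((a + h : ℕ) : ℚ) - ((0 : ℕ) : ℚ)) / d⌉ := by
    apply Int.ceil_le_ceil
    apply div_le_div_of_nonneg_right _ hdR.le
    push_cast
    have : (0 : ℚ) ≤ h := Nat.cast_nonneg h
    linarith
  rw [max_eq_left (by linarith)] at e1
  have e2 : ((((Ico a (a + h)).filter (fun n => n ≡ 0 [MOD d])).card : ℤ) : ℚ) =
      (⌈(((a + h : ℕ) : ℚ) - ((0 : ℕ) : ℚ)) / d⌉ : ℚ) - (⌈((a : ℚ) - ((0 : ℕ) : ℚ)) / d⌉ : ℚ) := by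
    rw [e1]; push_cast; ring
  have c1 := Int.le_ceil ((((a + h : ℕ) : ℚ) - ((0 : ℕ) : ℚ)) / d)
  have c2 := Int.ceil_lt_add_one ((((a + h : ℕ) : ℚ) - ((0 : ℕ) : ℚ)) / d)
  have c3 := Int.le_ceil (((a : ℚ) - ((0 : ℕ) : ℚ)) / d)
  have c4 := Int.ceil_lt_add_one (((a : ℚ) - ((0 : ℕ) : ℚ)) / d)
  have e3 : (((a + h : ℕ) : ℚ) - ((0 : ℕ) : ℚ)) / d - ((a : ℚ) - ((0 : ℕ) : ℚ)) / d = (h : ℚ) / d := by
    push_cast; ring
  have e4 : |(((((Ico a (a + h)).filter (fun n => n ≡ 0 [MOD d])).card : ℤ) : ℚ)) - (h : ℚ) / d| ≤ 1 := by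
    rw [abs_le]
    constructor <;> linarith
  have e5 : |(((((Ico a (a + h)).filter (fun n => n ≡ 0 [MOD d])).card : ℕ) : ℚ)) - (h : ℚ) / d| ≤ 1 := by
    exact_mod_cast e4
  have e6 := (Rat.cast_le (K := ℝ)).2 e5
  push_cast at e6
  exact e6

/-- upper bound sieve for rough values of a finite family -/
theorem sieve_upper_rough {ι : Type} (z : ℕ) (hz : 2 ≤ z) (I : Finset ι) (m : ι → ℕ) (X E : ℝ)
    (hX : 0 ≤ X) (hm : ∀ i ∈ I, 0 < m i)
    (hE : ∀ d ∈ Icc 1 (z ^ 2), |((I.filter fun i => d ∣ m i).card : ℝ) - X / d| ≤ E)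
    (J : Finset ι) (hJ : J ⊆ I) (hr : ∀ i ∈ J, ∀ q : ℕ, q.Prime → q ∣ m i → z ^ 2 < q) :
    (J.card : ℝ) ≤ 2 * X / Real.log z + (z : ℝ) ^ 4 * E := by
  obtain ⟨lam, l1, l0, labs, lnn, lsum⟩ := Pool.Agent.EC.svw z hz
  have h1mem : 1 ∈ Icc 1 (z ^ 2) := mem_Icc.mpr ⟨le_rfl, Nat.one_le_pow _ _ (by omega)⟩
  have hE0 : 0 ≤ E := (abs_nonneg _).trans (hE 1 h1mem)
  have s1 : (J.card : ℝ) ≤ ∑ i ∈ I, ∑ d ∈ (m i).divisors, lam d := by
    calc (J.card : ℝ) = ∑ i ∈ J, (1 : ℝ) := by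
          rw [sum_const, nsmul_eq_mul, mul_one]
      _ = ∑ i ∈ J, ∑ d ∈ (m i).divisors, lam d := by
          apply sum_congr rfl
          intro i hi
          have hmi := hm i (hJ hi)
          rw [sum_eq_single 1, l1]
          · intro d hd hd1
            obtain ⟨q, hq, hqd⟩ := Nat.exists_prime_and_dvd hd1
            have hdm := Nat.dvd_of_mem_divisors hd
            have h2 := hr i hi q hq (hqd.trans hdm)
            exact l0 d (lt_of_lt_of_le h2 (Nat.le_of_dvd (Nat.pos_of_mem_divisors hd) hqd))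
          · intro h
            exact absurd (Nat.mem_divisors.mpr ⟨one_dvd _, hmi.ne'⟩) h
      _ ≤ _ := by
          apply sum_le_sum_of_subset_of_nonneg hJ
          intro i hi _
          exact lnn _ (hm i hi)
  have s2 : ∑ i ∈ I, ∑ d ∈ (m i).divisors, lam d =
      ∑ d ∈ Icc 1 (z ^ 2), lam d * ((I.filter fun i => d ∣ m i).card : ℝ) := by
    rw [sum_congr rfl fun i hi => Pool.Agent.EC.svu_theta l0 (hm i hi), sum_comm]
    apply sum_congr rfl
    intro d _
    rw [← sum_filter, sum_const, nsmul_eq_mul, mul_comm]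
  have s3 : ∑ d ∈ Icc 1 (z ^ 2), lam d * ((I.filter fun i => d ∣ m i).card : ℝ) ≤
      ∑ d ∈ Icc 1 (z ^ 2), (X * (lam d / d) + |lam d| * E) := by
    apply sum_le_sum
    intro d hd
    have h1 := hE d hd
    have h2 : lam d * (((I.filter fun i => d ∣ m i).card : ℝ) - X / d) ≤ |lam d| * E := by
      calc _ ≤ |lam d * (((I.filter fun i => d ∣ m i).card : ℝ) - X / d)| := le_abs_self _
        _ = |lam d| * |((I.filter fun i => d ∣ m i).card : ℝ) - X / d| := abs_mul _ _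
        _ ≤ _ := mul_le_mul_of_nonneg_left h1 (abs_nonneg _)
    have h3 : lam d * (X / d) = X * (lam d / d) := by ring
    linarith
  have s4 : ∑ d ∈ Icc 1 (z ^ 2), (X * (lam d / d) + |lam d| * E) ≤
      X * (2 / Real.log z) + (z : ℝ) ^ 4 * E := by
    rw [sum_add_distrib, ← mul_sum, ← sum_mul]
    exact add_le_add (mul_le_mul_of_nonneg_left lsum hX) (mul_le_mul_of_nonneg_right labs hE0)
  calc (J.card : ℝ)
      ≤ X * (2 / Real.log z) + (z : ℝ) ^ 4 * E := s1.trans (s2.le.trans (s3.trans s4))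
    _ = _ := by ring

/-- elements of a block without prime factors up to `y` -/
noncomputable def Rgh (a h : ℕ) (y : ℝ) : Finset ℕ := by
  classical
  exact (Ico a (a + h)).filter (fun u => (PrI 1 y).filter (fun w => w ∣ u) = ∅)

theorem mem_Rgh {a h : ℕ} {y : ℝ} {u : ℕ} :
    u ∈ Rgh a h y ↔ u ∈ Ico a (a + h) ∧ ∀ p : ℕ, p.Prime → p ∣ u → y < p := by
  classical
  unfold Rgh
  rw [Finset.mem_filter]
  refine and_congr_right fun _ => ?_
  constructor
  · intro h1 p hp hpu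
    by_contra hlt
    rw [not_lt] at hlt
    have : p ∈ (PrI 1 y).filter (fun w => w ∣ u) :=
      Finset.mem_filter.mpr ⟨mem_PrI.2 ⟨hp, by exact_mod_cast hp.one_lt, hlt⟩, hpu⟩
    rw [h1] at this
    exact absurd this (Finset.notMem_empty _)
  · intro h1
    rw [Finset.filter_eq_empty_iff]
    intro p hp hpu
    rw [mem_PrI] at hp
    have := h1 p hp.1 hpu
    linarith [hp.2.2]

/-- Brun-Hooley lower bound for the number of rough integers in a block -/
theorem rough_lower : ∃ a0 c4 : ℝ, 0 < a0 ∧ a0 ≤ 1 / 12 ∧ 0 < c4 ∧ ∃ H0 : ℝ, 1 < H0 ∧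
    ∀ h : ℕ, H0 ≤ h → ∀ a : ℕ, c4 * (h / Real.log h) ≤ ((Rgh a h ((h : ℝ) ^ a0)).card : ℝ) := by
  classical
  obtain ⟨C, hC0, hC⟩ := Lr_bounds
  obtain ⟨c3, hc3, hprod⟩ := sieveI_lower
  obtain ⟨B, hB, hBp⟩ := sieveI_prod
  obtain ⟨b, hb⟩ := Pool.Agent.ECM.bh2 (3 + C) (by positivity)
  obtain ⟨a0, ha⟩ : ∃ a0 : ℝ, a0 = 1 / (2 * (4 * b + 6)) := ⟨_, rfl⟩
  have ha0 : 0 < a0 := by rw [ha]; positivity
  have ha1 : a0 ≤ 1 / 12 := by
    rw [ha]
    apply one_div_le_one_div_of_le (by norm_num)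
    have : (0 : ℝ) ≤ b := Nat.cast_nonneg b
    linarith
  have hab : a0 * (4 * b + 6) = 1 / 2 := by
    rw [ha]
    have : (4 * (b : ℝ) + 6) ≠ 0 := by positivity
    field_simp
  have hc4 : 0 < c3 / (4 * a0) := by positivity
  -- the error term
  have hev : ∀ᶠ H : ℝ in Filter.atTop, H ^ (1 / 2 : ℝ) * (B * (a0 * Real.log H)) ≤
      c3 / (4 * a0) * (H / Real.log H) := by
    have h1 : Filter.Tendsto (fun H : ℝ => Real.log H / H ^ (1 / 4 : ℝ)) Filter.atTop (nhds 0) :=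
      (isLittleO_log_rpow_atTop (by norm_num)).tendsto_div_nhds_zero
    have h2 := (h1.mul h1).const_mul (B * a0)
    rw [mul_zero, mul_zero] at h2
    filter_upwards [h2.eventually_le_const hc4, Filter.eventually_gt_atTop 1] with H hH hH1
    have hlog : 0 < Real.log H := Real.log_pos hH1
    have hH0 : 0 < H := by linarith
    have e1 : H = H ^ (1 / 4 : ℝ) * H ^ (1 / 4 : ℝ) * H ^ (1 / 2 : ℝ) := by
      rw [← Real.rpow_add hH0, ← Real.rpow_add hH0]
      norm_num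
    have e2 : H ^ (1 / 2 : ℝ) * (B * (a0 * Real.log H)) =
        (B * a0 * (Real.log H / H ^ (1 / 4 : ℝ) * (Real.log H / H ^ (1 / 4 : ℝ)))) *
          (H / Real.log H) := by
      have h4 : H ^ (1 / 4 : ℝ) ≠ 0 := (Real.rpow_pos_of_pos hH0 _).ne'
      conv_rhs => rw [e1]
      have h5 : Real.log (H ^ (1 / 4 : ℝ) * H ^ (1 / 4 : ℝ) * H ^ (1 / 2 : ℝ)) = Real.log H := by
        rw [← e1]
      rw [h5]
      have h6 : Real.log H ≠ 0 := hlog.ne'
      have h7 : (H ^ (1 / 4 : ℝ) * H ^ (1 / 4 : ℝ) * H ^ (1 / 2 : ℝ)) ^ (1 / 4 : ℝ) = H ^ (1 / 4 : ℝ) := by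
        rw [← e1]
      rw [h7]
      field_simp
    rw [e2]
    exact mul_le_mul_of_nonneg_right hH (by positivity)
  obtain ⟨H1, hH1⟩ := Filter.eventually_atTop.mp
    (hev.and ((tendsto_rpow_atTop ha0).eventually_ge_atTop 2))
  refine ⟨a0, c3 / (4 * a0), ha0, ha1, hc4, max H1 2, lt_of_lt_of_le (by norm_num) (le_max_right _ _), ?_⟩
  intro h hh a
  obtain ⟨herr, hy2⟩ := hH1 h ((le_max_left _ _).trans hh)
  have hh2 : (2 : ℝ) ≤ h := (le_max_right _ _).trans hh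
  have hX0 : (0 : ℝ) < h := by linarith
  obtain ⟨y, hy⟩ : ∃ y : ℝ, y = (h : ℝ) ^ a0 := ⟨_, rfl⟩
  rw [← hy] at hy2 ⊢
  have hy1 : 1 ≤ y := by linarith
  have hlogy : Real.log y = a0 * Real.log h := by rw [hy, Real.log_rpow hX0]
  have hlogX : 0 < Real.log h := Real.log_pos (by linarith)
  have hlogy0 : 0 < Real.log y := by rw [hlogy]; positivity
  have hyX : y ^ (4 * b + 6 : ℝ) = (h : ℝ) ^ (1 / 2 : ℝ) := by
    rw [hy, ← Real.rpow_mul hX0.le, hab]
  obtain ⟨t, ht5, hti, -⟩ := exists_t hy1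
  have hun : (Finset.range (t + 1)).biUnion (PN y t) = PrI 1 y := PN_union
  have hBH := hb ℕ ℕ inferInstance (Ico a (a + h)) (fun _ => (1 : ℝ)) (t + 1)
    (PN y t) (fun u => (PrI 1 y).filter (fun w => w ∣ u)) (fun w => 1 / (w : ℝ)) (h : ℝ)
    ((h : ℝ) ^ (1 / 2 : ℝ)) (fun _ _ => zero_le_one) (fun i j hi hj hij => PN_disjoint hy1 hi hj hij)
    (by
      intro u _
      rw [hun]
      exact Finset.filter_subset _ _)
    (by
      rw [hun]
      intro p hp
      have h5 : (2 : ℝ) ≤ p := by exact_mod_cast (mem_PrI.1 hp).1.two_le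
      refine ⟨by positivity, ?_⟩
      rw [div_le_div_iff₀ (by linarith) (by norm_num)]
      linarith)
    (fun i hi => PN_sum hC0 hC hy1 ht5 hti hi) hX0.le (by positivity)
    (by
      intro D hD hcard
      have hnm := prod_le_PN hy1 hD hcard
      rw [hyX] at hnm
      rw [hun] at hD
      have hDp : ∀ p ∈ D, p.Prime := fun p hp => (mem_PrI.1 (hD hp)).1
      have hfil : (Ico a (a + h)).filter (fun u => D ⊆ (PrI 1 y).filter (fun w => w ∣ u)) =
          (Ico a (a + h)).filter (fun u => (∏ w ∈ D, w) ∣ u) := by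
        refine Finset.filter_congr fun u _ => ?_
        constructor
        · intro h
          exact prod_dvd_PN hDp fun w hw => (Finset.mem_filter.mp (h hw)).2
        · intro h w hw
          exact Finset.mem_filter.mpr ⟨hD hw, (Finset.dvd_prod_of_mem (fun w => w) hw).trans h⟩
      rw [hfil]
      have hpos : 0 < ∏ w ∈ D, w := Finset.prod_pos fun p hp => (hDp p hp).pos
      have h1 := block_count a h (∏ w ∈ D, w) hpos
      have h2 : ∏ p ∈ D, 1 / (p : ℝ) = 1 / ((∏ w ∈ D, w : ℕ) : ℝ) := by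
        push_cast
        rw [Finset.prod_div_distrib, Finset.prod_const_one]
      rw [h2, mul_one_div, mul_one_div, Finset.sum_const, nsmul_eq_mul, mul_one]
      refine h1.trans ?_
      rw [one_le_div (by exact_mod_cast hpos)]
      exact hnm)
  rw [hun, Finset.sum_const, nsmul_eq_mul, mul_one] at hBH
  have hR : (Ico a (a + h)).filter (fun u => (PrI 1 y).filter (fun w => w ∣ u) = ∅) =
      Rgh a h y := by
    ext u
    rw [mem_Rgh, Finset.mem_filter]
    refine and_congr_right fun _ => ?_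
    constructor
    · intro h1 p hp hpu
      by_contra hlt
      rw [not_lt] at hlt
      have : p ∈ (PrI 1 y).filter (fun w => w ∣ u) :=
        Finset.mem_filter.mpr ⟨mem_PrI.2 ⟨hp, by exact_mod_cast hp.one_lt, hlt⟩, hpu⟩
      rw [h1] at this
      exact absurd this (Finset.notMem_empty _)
    · intro h1
      rw [Finset.filter_eq_empty_iff]
      intro p hp hpu
      rw [mem_PrI] at hp
      have := h1 p hp.1 hpu
      linarith [hp.2.2]
  rw [hR] at hBH
  refine le_trans ?_ hBH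
  have hmain : 2 * (c3 / (4 * a0) * (h / Real.log h)) ≤
      (h : ℝ) / 2 * ∏ p ∈ PrI 1 y, (1 - 1 / (p : ℝ)) := by
    calc 2 * (c3 / (4 * a0) * (h / Real.log h)) = (h : ℝ) / 2 * (c3 / Real.log y) := by
          rw [hlogy]
          field_simp
          ring
      _ ≤ (h : ℝ) / 2 * ∏ p ∈ PrI 1 y, (1 - 1 / (p : ℝ)) :=
          mul_le_mul_of_nonneg_left (hprod y hy2) (by positivity)
  have hE : (h : ℝ) ^ (1 / 2 : ℝ) * ∏ p ∈ PrI 1 y, (1 + 1 / (p : ℝ)) ≤
      c3 / (4 * a0) * (h / Real.log h) := by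
    refine le_trans (mul_le_mul_of_nonneg_left (hBp y hy2) (by positivity)) ?_
    rw [hlogy]
    exact herr
  linarith

end Pool.Agent.LongRun
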